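import Pool.Agent.T2H35.MZ.NonDir
import Pool.Agent.Results.MP_2000e9_nt.SumDimension

/-!
# The two orders of summation, and the lower bound for the sum of the spaces
-/

set_option autoImplicit false

open Polynomial Module

namespace Pool.Agent.T2H35.MZ

open Pool.Agent.H447R2.MZ hiding Direct Zs_one pi_pow_mem
open Pool.Agent.Y129.MZ Pool.Agent.Y123.MZ

theorem rev_le (N : ℕ) : Pool.Agent.Results.MP_2000e9_nt.SumDimension.Z N ≤ Zs N := by
  unfold Zs Pool.Agent.Results.MP_2000e9_nt.SumDimension.Z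
  rw [Submodule.span_le]
  rintro x ⟨t, k, h1, h2, h3, rfl⟩
  refine Submodule.subset_span ⟨t, k ∘ Fin.rev, fun i => h1 _, fun h => ?_, ?_, ?_⟩
  · have := h2 h
    have e : Fin.rev (⟨0, h⟩ : Fin t) = ⟨t - 1, Nat.sub_lt h one_pos⟩ := by
      ext
      simp only [Fin.val_rev]
      omega
    rw [Function.comp_apply, e]
    exact this
  · rw [← h3]
    exact Fintype.sum_equiv Fin.revPerm _ _ fun i => rfl
  · let e : {k : Fin t → ℕ // StrictMono k ∧ ∀ i, 1 ≤ k i} ≃ {m : Fin t → ℕ // StrictAnti m ∧ ∀ i, 1 ≤ m i} :=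
      { toFun := fun m => ⟨m.1 ∘ Fin.rev, fun i j hij => m.2.1 (Fin.rev_lt_rev.2 hij), fun i => m.2.2 _⟩
        invFun := fun m => ⟨m.1 ∘ Fin.rev, fun i j hij => m.2.1 (Fin.rev_lt_rev.2 hij), fun i => m.2.2 _⟩
        left_inv := fun m => by
          apply Subtype.ext
          funext i
          simp
        right_inv := fun m => by
          apply Subtype.ext
          funext i
          simp }
    rw [← e.tsum_eq]
    refine tsum_congr fun m => ?_
    exact Fintype.prod_equiv Fin.revPerm _ _ fun i => by simp [e]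

theorem rev_eq (N : ℕ) : Pool.Agent.Results.MP_2000e9_nt.SumDimension.Z N = Zs N :=
  le_antisymm (rev_le N) (Pool.Agent.Results.MP_2000e9_nt.SumDimension.Zs_le N)

theorem S_ge (N : ℕ) : 2 * N / 3 + 1 ≤ finrank ℚ (S N) := by
  have h := Pool.Agent.Results.MP_2000e9_nt.SumDimension.result N
  have e : (⨆ n ∈ Finset.range (N + 1), Pool.Agent.Results.MP_2000e9_nt.SumDimension.Z n) = S N := by
    simp only [S, rev_eq]
  rw [e, ← finrank_eq_rank] at h
  exact_mod_cast h

theorem nd_lin {p N : ℕ} (h : ¬ Direct p) (hN : p ≤ N) : 2 * N / 3 + 1 ≤ p * D (N + 2) :=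
  (S_ge N).trans (nd_le h hN)

end Pool.Agent.T2H35.MZ
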