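import Pool.Agent.T2H35.MZ.NonDir

/-!
# The dimensions and the degree of the field of ratios
-/

set_option autoImplicit false

open Polynomial Module Filter

namespace Pool.Agent.T2H35.MZ

open Pool.Agent.H447R2.MZ hiding Direct Zs_one pi_pow_mem
open Pool.Agent.Y129.MZ Pool.Agent.Y123.MZ

theorem D_le_rank (n : ℕ) : (D n : Cardinal) ≤ Module.rank ℚ ratioField := by
  rw [D, finrank_eq_rank]
  by_cases h : ∃ y ∈ Zs n, y ≠ 0
  · obtain ⟨y, hy, hy0⟩ := h
    let f : Zs n →ₗ[ℚ] ratioField :=
      { toFun := fun x => ⟨(x : ℝ) / y, div_mem_ratio x.2 hy⟩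
        map_add' := fun a b => by
          apply Subtype.ext
          change ((a : ℝ) + b) / y = (a : ℝ) / y + (b : ℝ) / y
          ring
        map_smul' := fun c a => by
          apply Subtype.ext
          change ((c • a : Zs n) : ℝ) / y = ((c • (⟨(a : ℝ) / y, _⟩ : ratioField) : ratioField) : ℝ)
          have h1 : ((c • a : Zs n) : ℝ) = (c : ℝ) * a := by
            rw [Submodule.coe_smul, Rat.smul_def]
          have h2 : ((c • (⟨(a : ℝ) / y, div_mem_ratio a.2 hy⟩ : ratioField) : ratioField) : ℝ) =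
              (c : ℝ) * ((a : ℝ) / y) := by
            rw [Rat.smul_def]
            push_cast
            rfl
          rw [h1, h2]
          ring }
    refine LinearMap.rank_le_of_injective f ?_
    intro a b hab
    apply Subtype.ext
    have h1 : (a : ℝ) / y = (b : ℝ) / y := congrArg Subtype.val hab
    exact (div_left_inj' hy0).1 h1
  · push Not at h
    have h1 : Zs n = ⊥ := by
      rw [eq_bot_iff]
      intro x hx
      exact h x hx
    rw [h1, rank_bot]
    exact zero_le

theorem exists_D_ge {d : ℕ} (hd : (d : Cardinal) ≤ Module.rank ℚ ratioField) :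
    ∀ᶠ n in atTop, d ≤ D n := by
  obtain ⟨s, hs, hli⟩ := (le_rank_iff_exists_linearIndependent_finset).1 hd
  classical
  obtain ⟨e⟩ : Nonempty (s ≃ Fin d) := ⟨Fintype.equivFinOfCardEq (by simpa using hs)⟩
  let v : Fin d → ratioField := fun i => (e.symm i : ratioField)
  have hv : LinearIndependent ℚ v := hli.comp _ e.symm.injective
  let Q : ratioField[X] := ∑ i : Fin d, monomial (i : ℕ) (v i)
  have hQ : ∀ i : Fin d, Q.coeff i = v i := by
    intro i
    simp only [Q, finsetSum_coeff, coeff_monomial]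
    rw [Finset.sum_eq_single i]
    · rw [if_pos rfl]
    · intro g _ hg
      rw [if_neg]
      intro h
      exact hg (Fin.ext h)
    · intro h
      exact absurd (Finset.mem_univ _) h
  obtain ⟨W, y, hy, hy0, hyQ⟩ := exists_denom Q
  have hW : d ≤ D W := by
    have h1 : LinearIndependent ℚ (fun i : Fin d => y * (v i : ℝ)) := by
      have h2 : LinearIndependent ℚ (fun i : Fin d => (v i : ℝ)) := by
        rw [Fintype.linearIndependent_iff] at hv ⊢
        intro g hg i
        refine hv g ?_ i
        apply Subtype.ext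
        have h5 : ((∑ i, g i • v i : ratioField) : ℝ) = ∑ i, g i • (v i : ℝ) := by
          rw [AddSubmonoidClass.coe_finsetSum]
          refine Finset.sum_congr rfl fun j _ => ?_
          rw [Rat.smul_def, Rat.smul_def]
          push_cast
          rfl
        rw [h5, hg]
        rfl
      exact h2.map' (LinearMap.mulLeft ℚ y) (LinearMap.ker_eq_bot.2 fun a b hab =>
        mul_left_cancel₀ hy0 hab)
    have h3 := card_le (Zs W) _ h1 (fun i => by
      have := hyQ i
      rwa [hQ i] at this)
    simpa using h3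
  filter_upwards [eventually_ge_atTop (W + 2)] with n hn
  refine hW.trans ?_
  obtain ⟨r, rfl⟩ : ∃ r, n = W + r := ⟨n - W, by omega⟩
  exact D_mono (by omega)

/-- the gap theorem, quantitative form -/
theorem alg_of_D_le {n w : ℕ} (hn : Even n) (h : 2 * w * D n ≤ n) {z : ℝ}
    (hz : z ∈ Zs w) : ∃ P : ℚ[X], P ≠ 0 ∧ P.natDegree ≤ D n ∧
      aeval ((z / Real.pi ^ w) ^ 2) P = 0 := by
  obtain ⟨m, hm⟩ := hn
  set x : ℝ := (z / Real.pi ^ w) ^ 2 with hx
  have hpi : Real.pi ≠ 0 := Real.pi_ne_zero
  have hmem : ∀ i : ℕ, i ≤ D n → Real.pi ^ n * x ^ i ∈ Zs n := by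
    intro i hi
    have h1 : 2 * w * i ≤ n := (Nat.mul_le_mul_left _ hi).trans h
    obtain ⟨r, hr⟩ : ∃ r, n = w * (2 * i) + 2 * r := ⟨m - w * i, by
      have e1 : 2 * w * i = 2 * (w * i) := by ring
      have e2 : w * (2 * i) = 2 * (w * i) := by ring
      rw [e1] at h1
      rw [e2]
      generalize w * i = A at h1 ⊢
      omega⟩
    have h2 := mul_mem _ _ _ _ (pow_mem w z hz (2 * i)) (pi_pow_mem r)
    rw [← hr] at h2
    convert h2 using 1
    rw [hx, hr, pow_add, ← pow_mul, div_pow, ← pow_mul]
    field_simp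
  by_contra hcon
  push Not at hcon
  have hli : LinearIndependent ℚ (fun i : Fin (D n + 1) => Real.pi ^ n * x ^ (i : ℕ)) := by
    rw [Fintype.linearIndependent_iff]
    intro g hg i
    let P : ℚ[X] := ∑ i : Fin (D n + 1), monomial (i : ℕ) (g i)
    have hPc : P.coeff i = g i := by
      simp only [P, finsetSum_coeff, coeff_monomial]
      rw [Finset.sum_eq_single i]
      · rw [if_pos rfl]
      · intro b _ hb
        rw [if_neg]
        intro h
        exact hb (Fin.ext h)
      · intro h
        exact absurd (Finset.mem_univ _) h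
    by_contra hgi
    have hP0 : P ≠ 0 := by
      intro h0
      rw [h0, coeff_zero] at hPc
      exact hgi hPc.symm
    refine hcon P hP0 ?_ ?_
    · refine natDegree_sum_le_of_forall_le _ _ fun b _ => ?_
      exact (natDegree_monomial_le _).trans (by have := b.2; omega)
    · have h1 : Real.pi ^ n * aeval x P = 0 := by
        rw [← hg]
        simp only [P, map_sum, aeval_monomial, Finset.mul_sum]
        refine Finset.sum_congr rfl fun b _ => ?_
        rw [Rat.smul_def, eq_ratCast]
        ring
      exact (mul_eq_zero.1 h1).resolve_left (pow_ne_zero _ hpi)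
  have h3 := card_le (Zs n) _ hli (fun i => hmem i (by have := i.2; omega))
  rw [Fintype.card_fin] at h3
  change D n + 1 ≤ D n at h3
  omega

/-- the gap theorem -/
theorem gap : ((∀ w, ∀ z ∈ Zs w, IsAlgebraic ℚ (z / Real.pi ^ w)) ∧ ∀ p, Direct p) ∨
    ∃ c : ℝ, 0 < c ∧ ∀ n : ℕ, 2 ≤ n → c * n ≤ D n := by
  by_cases h : ∀ w, ∀ z ∈ Zs w, IsAlgebraic ℚ (z / Real.pi ^ w)
  · exact Or.inl ⟨h, fun p => direct_of_algebraic p fun j _ z hz => h j z hz⟩
  · right
    push Not at h
    obtain ⟨w, z, hz, ht⟩ := h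
    have hw0 : 0 < w := by
      by_contra h0
      have : w = 0 := by omega
      subst this
      obtain ⟨q, rfl⟩ := Zs_zero hz
      apply ht
      simpa using (isAlgebraic_ratCast ℚ q : IsAlgebraic ℚ ((q : ℝ)))
    refine ⟨((2 * w + 5 : ℕ) : ℝ)⁻¹, by positivity, fun n hn => ?_⟩
    have h1 := growth w z hz ht n hn
    rw [← finrank_eq_rank] at h1
    have h2 : (n - 3 * (n % 2)) / (2 * w) + 1 ≤ D n := by exact_mod_cast h1
    have h3 : n ≤ (2 * w + 5) * D n := by
      have h4 : n - 3 * (n % 2) < (2 * w) * ((n - 3 * (n % 2)) / (2 * w) + 1) :=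
        Nat.lt_mul_div_succ _ (by omega)
      have h5 : (2 * w) * ((n - 3 * (n % 2)) / (2 * w) + 1) ≤ 2 * w * D n :=
        Nat.mul_le_mul_left _ h2
      have h6 := D_pos hn
      have h7 : n ≤ 2 * w * D n + 3 := by omega
      nlinarith
    rw [inv_mul_le_iff₀ (by positivity)]
    exact_mod_cast h3

end Pool.Agent.T2H35.MZ
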