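import Mathlib

/-!
# Graded families of subspaces of a field: relations and dimensions
-/

set_option autoImplicit false

open Polynomial Module

namespace Pool.Agent.T2H35.MZ

variable (Z : ℕ → Submodule ℚ ℝ)

/-- A finite sequence of homogeneous elements as a polynomial. -/
noncomputable def toPoly (N : ℕ) : (∀ n : Fin N, Z n) →ₗ[ℚ] ℝ[X] :=
  ∑ n : Fin N, ((monomial (R := ℝ) (n : ℕ)).restrictScalars ℚ).comp
    ((Z n).subtype.comp (LinearMap.proj n))

theorem toPoly_apply (N : ℕ) (f : ∀ n : Fin N, Z n) :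
    toPoly Z N f = ∑ n : Fin N, monomial (n : ℕ) (f n : ℝ) := by
  simp [toPoly]

theorem toPoly_coeff (N : ℕ) (f : ∀ n : Fin N, Z n) (j : ℕ) :
    (toPoly Z N f).coeff j = if h : j < N then (f ⟨j, h⟩ : ℝ) else 0 := by
  rw [toPoly_apply, finsetSum_coeff]
  simp only [coeff_monomial]
  split_ifs with h
  · rw [Finset.sum_eq_single ⟨j, h⟩]
    · simp
    · intro b _ hb
      rw [if_neg]
      intro h1
      exact hb (Fin.ext h1)
    · intro h1
      exact absurd (Finset.mem_univ _) h1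
  · refine Finset.sum_eq_zero fun b _ => ?_
    rw [if_neg]
    intro h1
    exact h (h1 ▸ b.2)

theorem toPoly_injective (N : ℕ) : Function.Injective (toPoly Z N) := by
  intro f g hfg
  funext n
  apply Subtype.ext
  have h1 := congrArg (fun P => coeff P (n : ℕ)) hfg
  simp only [toPoly_coeff] at h1
  rw [dif_pos n.2, dif_pos n.2] at h1
  exact h1

/-- Polynomials of degree `< N` with homogeneous coefficients. -/
noncomputable def G (N : ℕ) : Submodule ℚ ℝ[X] := LinearMap.range (toPoly Z N)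

theorem mem_G {N : ℕ} {P : ℝ[X]} :
    P ∈ G Z N ↔ (∀ j, P.coeff j ∈ Z j) ∧ ∀ j, N ≤ j → P.coeff j = 0 := by
  constructor
  · rintro ⟨f, rfl⟩
    refine ⟨fun j => ?_, fun j hj => ?_⟩
    · rw [toPoly_coeff]
      split_ifs with h
      · exact (f ⟨j, h⟩).2
      · exact Submodule.zero_mem _
    · rw [toPoly_coeff, dif_neg (by omega)]
  · rintro ⟨h1, h2⟩
    refine ⟨fun n => ⟨P.coeff n, h1 n⟩, ?_⟩
    ext j
    rw [toPoly_coeff]
    split_ifs with h
    · rfl
    · exact (h2 j (by omega)).symm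

theorem finrank_G [∀ n, FiniteDimensional ℚ (Z n)] (N : ℕ) :
    finrank ℚ (G Z N) = ∑ n ∈ Finset.range N, finrank ℚ (Z n) := by
  rw [G, LinearMap.finrank_range_of_inj (toPoly_injective Z N), Module.finrank_pi_fintype,
    Finset.sum_range]

instance finite_G [∀ n, FiniteDimensional ℚ (Z n)] (N : ℕ) : FiniteDimensional ℚ (G Z N) := by
  unfold G
  infer_instance

/-- Evaluation at `1`. -/
noncomputable def ev : ℝ[X] →ₗ[ℚ] ℝ := (leval (R := ℝ) 1).restrictScalars ℚ

theorem ev_apply (P : ℝ[X]) : ev P = P.eval 1 := rfl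

theorem map_G (N : ℕ) : (G Z N).map ev = ⨆ n ∈ Finset.range N, Z n := by
  apply le_antisymm
  · rintro _ ⟨_, ⟨f, rfl⟩, rfl⟩
    rw [toPoly_apply, map_sum]
    refine Submodule.sum_mem _ fun n _ => ?_
    rw [ev_apply, eval_monomial, one_pow, mul_one]
    have h1 : Z n ≤ ⨆ n ∈ Finset.range N, Z n :=
      le_iSup₂_of_le (n : ℕ) (Finset.mem_range.2 n.2) le_rfl
    exact h1 (f n).2
  · refine iSup₂_le fun n hn x hx => ?_
    refine ⟨monomial n x, (mem_G Z).2 ⟨fun j => ?_, fun j hj => ?_⟩, ?_⟩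
    · rw [coeff_monomial]
      split_ifs with h
      · rw [← h]; exact hx
      · exact Submodule.zero_mem _
    · rw [coeff_monomial, if_neg]
      have := Finset.mem_range.1 hn
      omega
    · rw [ev_apply, eval_monomial, one_pow, mul_one]

theorem mul_mem_G (hmul : ∀ m n x y, x ∈ Z m → y ∈ Z n → x * y ∈ Z (m + n)) {M N : ℕ}
    {P Q : ℝ[X]} (hP : P ∈ G Z (M + 1)) (hQ : Q ∈ G Z (N + 1)) : P * Q ∈ G Z (M + N + 1) := by
  rw [mem_G] at hP hQ ⊢
  refine ⟨fun j => ?_, fun j hj => ?_⟩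
  · rw [coeff_mul]
    refine Submodule.sum_mem _ fun x hx => ?_
    have h1 := Finset.HasAntidiagonal.mem_antidiagonal.1 hx
    rw [← h1]
    exact hmul _ _ _ _ (hP.1 _) (hQ.1 _)
  · rw [coeff_mul]
    refine Finset.sum_eq_zero fun x hx => ?_
    have h1 := Finset.HasAntidiagonal.mem_antidiagonal.1 hx
    rcases Nat.lt_or_ge M x.1 with h2 | h2
    · rw [hP.2 _ h2, zero_mul]
    · rw [hQ.2 _ (by omega), mul_zero]

/-- A nontrivial relation between homogeneous elements of degree at most `p` makes the sum of the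
spaces of degree at most `N` small. -/
theorem main_ineq [∀ n, FiniteDimensional ℚ (Z n)]
    (hmul : ∀ m n x y, x ∈ Z m → y ∈ Z n → x * y ∈ Z (m + n)) {p : ℕ}
    {z : ℕ → ℝ} (hz : ∀ j ≤ p, z j ∈ Z j) (h0 : ∑ j ∈ Finset.range (p + 1), z j = 0)
    (hne : ∃ j ≤ p, z j ≠ 0) {N : ℕ} (hN : p ≤ N) :
    finrank ℚ ↥(⨆ n ∈ Finset.range (N + 1), Z n) +
      ∑ n ∈ Finset.range (N - p + 1), finrank ℚ (Z n) ≤
      ∑ n ∈ Finset.range (N + 1), finrank ℚ (Z n) := by
  -- the relation as a polynomial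
  set g : ℝ[X] := ∑ j ∈ Finset.range (p + 1), monomial j (z j) with hg
  have hgc : ∀ j, g.coeff j = if j ≤ p then z j else 0 := fun j => by
    simp only [hg, finsetSum_coeff, coeff_monomial, Finset.sum_ite_eq', Finset.mem_range,
      Nat.lt_succ_iff]
  have hgG : g ∈ G Z (p + 1) := by
    rw [mem_G]
    refine ⟨fun j => ?_, fun j hj => ?_⟩
    · rw [hgc]
      split_ifs with h
      · exact hz j h
      · exact Submodule.zero_mem _
    · rw [hgc, if_neg (by omega)]
  have hg0 : g ≠ 0 := by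
    obtain ⟨j, hj, hj0⟩ := hne
    intro h
    have h1 := hgc j
    rw [h, coeff_zero, if_pos hj] at h1
    exact hj0 h1.symm
  have hg1 : ev g = 0 := by
    rw [hg, map_sum, ← h0]
    refine Finset.sum_congr rfl fun j _ => ?_
    rw [ev_apply, eval_monomial, one_pow, mul_one]
  -- rank and nullity
  let E : G Z (N + 1) →ₗ[ℚ] ℝ := ev.domRestrict (G Z (N + 1))
  have hE : finrank ℚ (LinearMap.range E) + finrank ℚ (LinearMap.ker E) =
      finrank ℚ (G Z (N + 1)) := LinearMap.finrank_range_add_finrank_ker E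
  have hr : LinearMap.range E = ⨆ n ∈ Finset.range (N + 1), Z n := by
    rw [← map_G]
    exact LinearMap.range_domRestrict _ _
  have hmem : ∀ f : G Z (N - p + 1), g * (f : ℝ[X]) ∈ G Z (N + 1) := fun f => by
    have h1 := mul_mem_G Z hmul hgG f.2
    rwa [show p + (N - p) + 1 = N + 1 by omega] at h1
  let μ : G Z (N - p + 1) →ₗ[ℚ] LinearMap.ker E :=
    { toFun := fun f => ⟨⟨g * (f : ℝ[X]), hmem f⟩, by
        rw [LinearMap.mem_ker]
        change ev (g * (f : ℝ[X])) = 0
        rw [ev_apply] at hg1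
        rw [ev_apply, eval_mul, hg1, zero_mul]⟩
      map_add' := fun a b => by
        apply Subtype.ext
        apply Subtype.ext
        change g * ((a + b : G Z (N - p + 1)) : ℝ[X]) = g * (a : ℝ[X]) + g * (b : ℝ[X])
        rw [Submodule.coe_add, mul_add]
      map_smul' := fun c a => by
        apply Subtype.ext
        apply Subtype.ext
        change g * ((c • a : G Z (N - p + 1)) : ℝ[X]) = c • (g * (a : ℝ[X]))
        rw [Submodule.coe_smul, mul_smul_comm] }
  have hμ : Function.Injective μ := by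
    intro a b hab
    apply Subtype.ext
    have h1 : g * (a : ℝ[X]) = g * (b : ℝ[X]) :=
      congrArg (fun x : LinearMap.ker E => ((x : G Z (N + 1)) : ℝ[X])) hab
    exact mul_left_cancel₀ hg0 h1
  have h2 : finrank ℚ (G Z (N - p + 1)) ≤ finrank ℚ (LinearMap.ker E) :=
    LinearMap.finrank_le_finrank_of_injective hμ
  rw [finrank_G] at h2 hE
  rw [hr] at hE
  omega

end Pool.Agent.T2H35.MZ
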