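import Pool.Agent.Y123.MZ.Indep
import Pool.Agent.H447R2.MZ.Dich
import Pool.Agent.T2H35.MZ.Graded

/-!
# Dimensions of the spaces of multiple zeta values
-/

set_option autoImplicit false

open Polynomial Module

namespace Pool.Agent.T2H35.MZ

open Pool.Agent.H447R2.MZ hiding Direct Zs_one pi_pow_mem
open Pool.Agent.Y129.MZ Pool.Agent.Y123.MZ

instance finite_Zs (n : ℕ) : FiniteDimensional ℚ (Zs n) := by
  have h : ({x : ℝ | ∃ s : List ℕ, Adm s ∧ s.sum = n ∧ x = val s}).Finite := by
    refine (Set.finite_range (fun c : Composition n => val c.blocks)).subset ?_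
    rintro _ ⟨s, hs, hn, rfl⟩
    exact ⟨⟨s, fun {i} hi => hs.1 i hi, hn⟩, rfl⟩
  rw [Zs_eq]
  exact FiniteDimensional.span_of_finite ℚ h

/-- the dimension of the space of weight `n` -/
noncomputable abbrev D (n : ℕ) : ℕ := finrank ℚ (Zs n)

/-- the sum of the spaces of weight at most `N` -/
noncomputable abbrev S (N : ℕ) : Submodule ℚ ℝ := ⨆ n ∈ Finset.range (N + 1), Zs n

instance finite_S (N : ℕ) : FiniteDimensional ℚ (S N) := by
  have h := map_G Zs (N + 1)
  rw [S, ← h]
  infer_instance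

theorem card_le {ι : Type*} [Fintype ι] (V : Submodule ℚ ℝ) [FiniteDimensional ℚ V] (v : ι → ℝ)
    (hv : LinearIndependent ℚ v) (hm : ∀ i, v i ∈ V) : Fintype.card ι ≤ finrank ℚ V := by
  have h : LinearIndependent ℚ (fun i => (⟨v i, hm i⟩ : V)) := LinearIndependent.of_comp V.subtype hv
  exact h.fintype_card_le_finrank

theorem D_mono {n m : ℕ} (hm : 2 ≤ m) : D n ≤ D (n + m) := by
  obtain ⟨t, ht, ht0⟩ := exists_ne hm
  have hmap : ∀ x ∈ Zs n, LinearMap.mulLeft ℚ t x ∈ Zs (n + m) := fun x hx => by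
    have h1 := mul_mem m n t x ht hx
    rwa [add_comm m n] at h1
  refine LinearMap.finrank_le_finrank_of_injective
    (f := (LinearMap.mulLeft ℚ t).restrict hmap) ?_
  intro a b hab
  apply Subtype.ext
  have h1 : t * (a : ℝ) = t * (b : ℝ) := congrArg Subtype.val hab
  exact mul_left_cancel₀ ht0 h1

theorem D_pos {n : ℕ} (hn : 2 ≤ n) : 1 ≤ D n := by
  obtain ⟨t, ht, ht0⟩ := exists_ne hn
  have h := card_le (ι := Fin 1) (Zs n) (fun _ => t) (LinearIndependent.of_subsingleton 0 ht0)
    (fun _ => ht)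
  simpa using h

theorem D_zero_pos : 1 ≤ D 0 := by
  have h := card_le (ι := Fin 1) (Zs 0) (fun _ => (1 : ℝ))
    (LinearIndependent.of_subsingleton 0 one_ne_zero) (fun _ => one_mem)
  simpa using h

theorem prod_mem {σ : Type*} (s : Finset σ) (x : σ → ℝ) (a : σ → ℕ)
    (h : ∀ i ∈ s, x i ∈ Zs (a i)) : ∏ i ∈ s, x i ∈ Zs (∑ i ∈ s, a i) := by
  classical
  induction s using Finset.induction_on with
  | empty => simpa using one_mem
  | insert i s hi ih =>
    rw [Finset.prod_insert hi, Finset.sum_insert hi]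
    exact mul_mem _ _ _ _ (h i (Finset.mem_insert_self i s))
      (ih fun j hj => h j (Finset.mem_insert_of_mem hj))

theorem mono_indep {σ : Type*} {z : σ → ℝ} (hz : AlgebraicIndependent ℚ z) :
    LinearIndependent ℚ (fun e : σ →₀ ℕ => e.prod fun i k => z i ^ k) := by
  have h1 := (MvPolynomial.basisMonomials σ ℚ).linearIndependent
  have h2 := h1.map' (MvPolynomial.aeval z).toLinearMap (LinearMap.ker_eq_bot.2 hz)
  have h3 : (fun e : σ →₀ ℕ => e.prod fun i k => z i ^ k) =
      ⇑(MvPolynomial.aeval (R := ℚ) z).toLinearMap ∘ ⇑(MvPolynomial.basisMonomials σ ℚ) := by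
    funext e
    simp [MvPolynomial.coe_basisMonomials, MvPolynomial.aeval_monomial]
  rw [h3]
  exact h2

theorem mono_indep' {σ : Type*} [Fintype σ] {z : σ → ℝ} (hz : AlgebraicIndependent ℚ z)
    (k : σ → ℕ) (hk : ∀ i, 0 < k i) :
    LinearIndependent ℚ (fun e : σ → ℕ => ∏ i, (z i ^ k i) ^ e i) := by
  have h := mono_indep hz
  have hinj : Function.Injective
      (fun e : σ → ℕ => (Finsupp.equivFunOnFinite.symm fun i => k i * e i : σ →₀ ℕ)) := by
    intro e e' h
    funext i
    have h1 := DFunLike.congr_fun h i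
    simp only [Finsupp.equivFunOnFinite_symm_apply_apply] at h1
    exact Nat.eq_of_mul_eq_mul_left (hk i) h1
  have h2 := h.comp _ hinj
  have h3 : (fun e : σ → ℕ => ∏ i, (z i ^ k i) ^ e i) =
      (fun e : σ →₀ ℕ => e.prod fun i k => z i ^ k) ∘
        (fun e : σ → ℕ => (Finsupp.equivFunOnFinite.symm fun i => k i * e i : σ →₀ ℕ)) := by
    funext e
    simp only [Function.comp_apply]
    rw [Finsupp.prod_fintype _ _ (fun i => pow_zero _)]
    simp only [Finsupp.equivFunOnFinite_symm_apply_apply, pow_mul]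
  rw [h3]
  exact h2

/-- weights of algebraically independent homogeneous elements -/
theorem weight_pos {σ : Type*} {z : σ → ℝ} (hz : AlgebraicIndependent ℚ z) {w : σ → ℕ}
    (hw : ∀ i, z i ∈ Zs (w i)) (i : σ) : 0 < w i := by
  by_contra h
  have h0 : w i = 0 := by omega
  have h1 := hw i
  rw [h0] at h1
  obtain ⟨q, hq⟩ := Zs_zero h1
  have h2 : Transcendental ℚ (z i) := hz.transcendental i
  apply h2
  rw [hq]
  exact isAlgebraic_ratCast ℚ q

theorem u_mem {σ : Type*} [Fintype σ] {z : σ → ℝ} {w : σ → ℕ}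
    (hw : ∀ i, z i ∈ Zs (w i)) (i : σ) :
    z i ^ ((∏ j, w j) / w i) ∈ Zs (∏ j, w j) := by
  have h := pow_mem (w i) (z i) (hw i) ((∏ j, w j) / w i)
  rwa [Nat.mul_div_cancel' (Finset.dvd_prod_of_mem w (Finset.mem_univ i))] at h

theorem k_pos {σ : Type*} [Fintype σ] {w : σ → ℕ} (hw : ∀ i, 0 < w i) (i : σ) :
    0 < (∏ j, w j) / w i :=
  Nat.div_pos (Nat.le_of_dvd (Finset.prod_pos fun j _ => hw j)
    (Finset.dvd_prod_of_mem w (Finset.mem_univ i))) (hw i)

/-- `m + 1` algebraically independent homogeneous elements: the dimensions grow at least like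
`n ^ m`. -/
theorem D_growth {m : ℕ} {z : Fin (m + 1) → ℝ} (hz : AlgebraicIndependent ℚ z)
    (hw : ∀ i, ∃ w, z i ∈ Zs w) : ∃ c : ℝ, 0 < c ∧ ∀ n : ℕ, 2 ≤ n → c * (n : ℝ) ^ m ≤ D n := by
  choose w hw using hw
  have hpos := weight_pos hz hw
  set W : ℕ := ∏ j, w j with hW
  have hWpos : 0 < W := Finset.prod_pos fun j _ => hpos j
  have hmain : ∀ q : ℕ, (q + 1) ^ m ≤ D (W * (m * q)) := by
    intro q
    have hsum : ∀ c : Fin m → Fin (q + 1), ∑ j, (c j : ℕ) ≤ m * q := by
      intro c
      calc ∑ j, (c j : ℕ) ≤ ∑ _j : Fin m, q := Finset.sum_le_sum fun j _ => by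
            have := (c j).2
            omega
        _ = m * q := by simp
    let e : (Fin m → Fin (q + 1)) → (Fin (m + 1) → ℕ) := fun c =>
      Fin.cons (m * q - ∑ j, (c j : ℕ)) (fun j => (c j : ℕ))
    have he : Function.Injective e := by
      intro c c' h
      funext j
      have h1 := congrFun h j.succ
      simp only [e, Fin.cons_succ] at h1
      exact Fin.ext h1
    have h1 := (mono_indep' hz (fun i => W / w i) (k_pos hpos)).comp e he
    have h2 := card_le (Zs (W * (m * q))) _ h1 (fun c => by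
      have h3 := prod_mem Finset.univ (fun i => (z i ^ (W / w i)) ^ e c i) (fun i => W * e c i)
        (fun i _ => pow_mem W _ (u_mem hw i) (e c i))
      have h4 : ∑ i, W * e c i = W * (m * q) := by
        rw [← Finset.mul_sum, Fin.sum_univ_succ]
        simp only [e, Fin.cons_zero, Fin.cons_succ]
        rw [Nat.sub_add_cancel (hsum c)]
      rw [h4] at h3
      exact h3)
    simpa using h2
  rcases Nat.eq_zero_or_pos m with hm0 | hm0
  · subst hm0
    refine ⟨1, one_pos, fun n hn => ?_⟩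
    have := D_pos hn
    rw [pow_zero, mul_one]
    exact_mod_cast this
  · set K : ℕ := W * m with hK
    have hKpos : 0 < K := Nat.mul_pos hWpos hm0
    refine ⟨(((K + 2 : ℕ) : ℝ) ^ m)⁻¹, by positivity, fun n hn => ?_⟩
    set q : ℕ := (n - 2) / K with hq
    have h1 : K * q ≤ n - 2 := Nat.mul_div_le _ _
    have h2 : n - 2 < K * (q + 1) := Nat.lt_mul_div_succ _ hKpos
    have h3 : n ≤ (K + 2) * (q + 1) := by
      have e1 : (K + 2) * (q + 1) = K * (q + 1) + 2 * (q + 1) := by ring
      rw [e1]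
      generalize K * (q + 1) = A at h2 ⊢
      clear_value q
      omega
    have h4 : (q + 1) ^ m ≤ D n := by
      refine (hmain q).trans ?_
      have h5 : W * (m * q) = K * q := by rw [hK, mul_assoc]
      rw [h5]
      obtain ⟨r, hr⟩ : ∃ r, n = K * q + r := ⟨n - K * q, by omega⟩
      rw [hr]
      exact D_mono (by omega)
    have h5 : (n : ℝ) ^ m ≤ ((K + 2 : ℕ) : ℝ) ^ m * D n := by
      calc (n : ℝ) ^ m ≤ (((K + 2) * (q + 1) : ℕ) : ℝ) ^ m := by
            gcongr
        _ = ((K + 2 : ℕ) : ℝ) ^ m * (((q + 1) ^ m : ℕ) : ℝ) := by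
            push_cast
            rw [mul_pow]
        _ ≤ _ := by
            gcongr
    rw [inv_mul_le_iff₀ (by positivity)]
    exact h5

/-- `m` algebraically independent homogeneous elements: the dimension of the sum of the spaces of
weight at most `N` grows at least like `N ^ m`. -/
theorem S_growth {m : ℕ} {z : Fin m → ℝ} (hz : AlgebraicIndependent ℚ z)
    (hw : ∀ i, ∃ w, z i ∈ Zs w) :
    ∃ c : ℝ, 0 < c ∧ ∀ N : ℕ, c * ((N : ℝ) + 1) ^ m ≤ finrank ℚ (S N) := by
  choose w hw using hw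
  have hpos := weight_pos hz hw
  set W : ℕ := ∏ j, w j with hW
  have hWpos : 0 < W := Finset.prod_pos fun j _ => hpos j
  set K : ℕ := W * m with hK
  have hmain : ∀ q N : ℕ, K * q ≤ N → (q + 1) ^ m ≤ finrank ℚ (S N) := by
    intro q N hN
    have hsum : ∀ c : Fin m → Fin (q + 1), ∑ j, (c j : ℕ) ≤ m * q := by
      intro c
      calc ∑ j, (c j : ℕ) ≤ ∑ _j : Fin m, q := Finset.sum_le_sum fun j _ => by
            have := (c j).2
            omega
        _ = m * q := by simp
    let e : (Fin m → Fin (q + 1)) → (Fin m → ℕ) := fun c j => (c j : ℕ)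
    have he : Function.Injective e := by
      intro c c' h
      funext j
      exact Fin.ext (congrFun h j)
    have h1 := (mono_indep' hz (fun i => W / w i) (k_pos hpos)).comp e he
    have h2 := card_le (S N) _ h1 (fun c => by
      have h3 := prod_mem Finset.univ (fun i => (z i ^ (W / w i)) ^ e c i) (fun i => W * e c i)
        (fun i _ => pow_mem W _ (u_mem hw i) (e c i))
      have h4 : ∑ i, W * e c i ≤ N := by
        rw [← Finset.mul_sum]
        calc W * ∑ i, e c i ≤ W * (m * q) := Nat.mul_le_mul_left _ (hsum c)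
          _ = K * q := by rw [hK, mul_assoc]
          _ ≤ N := hN
      have h5 : Zs (∑ i, W * e c i) ≤ S N :=
        le_iSup₂_of_le (∑ i, W * e c i) (Finset.mem_range.2 (by omega)) le_rfl
      exact h5 h3)
    simpa using h2
  refine ⟨(((K + 1 : ℕ) : ℝ) ^ m)⁻¹, by positivity, fun N => ?_⟩
  obtain ⟨q, hq1, hq2⟩ : ∃ q, K * q ≤ N ∧ (N + 1 ≤ (K + 1) * (q + 1) ∨ m = 0) := by
    rcases Nat.eq_zero_or_pos K with hK0 | hK0
    · refine ⟨0, by simp, Or.inr ?_⟩
      rcases Nat.mul_eq_zero.1 hK0 with h | h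
      · omega
      · exact h
    · refine ⟨N / K, Nat.mul_div_le _ _, Or.inl ?_⟩
      have h2 : N < K * (N / K + 1) := Nat.lt_mul_div_succ _ hK0
      have e1 : (K + 1) * (N / K + 1) = K * (N / K + 1) + (N / K + 1) := by ring
      rw [e1]
      generalize K * (N / K + 1) = A at h2 ⊢
      generalize N / K = r
      omega
  have h4 := hmain q N hq1
  rw [inv_mul_le_iff₀ (by positivity)]
  rcases hq2 with h3 | h3
  · calc ((N : ℝ) + 1) ^ m ≤ (((K + 1) * (q + 1) : ℕ) : ℝ) ^ m := by
          gcongr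
          exact_mod_cast h3
      _ = ((K + 1 : ℕ) : ℝ) ^ m * (((q + 1) ^ m : ℕ) : ℝ) := by
          push_cast
          rw [mul_pow]
      _ ≤ _ := by
          gcongr
  · subst h3
    simp only [pow_zero, one_mul]
    have : 1 ≤ finrank ℚ (S N) := by simpa using h4
    exact_mod_cast this

end Pool.Agent.T2H35.MZ
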