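import Pool.Agent.T2H35.MZ.Dim

/-!
# The dimensions if the sum of the weight spaces is not direct
-/

set_option autoImplicit false

open Polynomial Module

namespace Pool.Agent.T2H35.MZ

open Pool.Agent.H447R2.MZ hiding Direct Zs_one pi_pow_mem
open Pool.Agent.Y129.MZ Pool.Agent.Y123.MZ

theorem nd_ineq {p N : ℕ} (h : ¬ Direct p) (hN : p ≤ N) :
    finrank ℚ (S N) + ∑ n ∈ Finset.range (N - p + 1), D n ≤
      ∑ n ∈ Finset.range (N + 1), D n := by
  unfold Direct at h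
  push Not at h
  obtain ⟨z, hz, hs, j, hj, hj0⟩ := h
  exact main_ineq Zs mul_mem hz hs ⟨j, hj, hj0⟩ hN

theorem nd_le {p N : ℕ} (h : ¬ Direct p) (hN : p ≤ N) : finrank ℚ (S N) ≤ p * D (N + 2) := by
  have h1 := nd_ineq h hN
  have h2 := Finset.sum_range_add_sum_Ico D (show N - p + 1 ≤ N + 1 by omega)
  have h3 : ∑ n ∈ Finset.Ico (N - p + 1) (N + 1), D n ≤ p * D (N + 2) := by
    calc ∑ n ∈ Finset.Ico (N - p + 1) (N + 1), D n
        ≤ ∑ _n ∈ Finset.Ico (N - p + 1) (N + 1), D (N + 2) := by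
          refine Finset.sum_le_sum fun n hn => ?_
          obtain ⟨r, hr⟩ : ∃ r, N + 2 = n + r := ⟨N + 2 - n, by
            have := (Finset.mem_Ico.1 hn).2
            omega⟩
          rw [hr]
          refine D_mono ?_
          have := (Finset.mem_Ico.1 hn).2
          omega
      _ = p * D (N + 2) := by
          rw [Finset.sum_const, Nat.card_Ico, smul_eq_mul]
          congr 1
          omega
  omega

theorem nd_growth {p m : ℕ} (h : ¬ Direct p) {z : Fin m → ℝ} (hz : AlgebraicIndependent ℚ z)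
    (hw : ∀ i, ∃ w, z i ∈ Zs w) : ∃ c : ℝ, 0 < c ∧ c ≤ 1 ∧ ∀ n : ℕ, 2 ≤ n → c * (n : ℝ) ^ m ≤ D n := by
  obtain ⟨c, hc, hS⟩ := S_growth hz hw
  have hc' : 0 < c / (((p : ℝ) + 1) * 2 ^ m) := by positivity
  have hp' : 0 < (((p : ℝ) + 2) ^ m)⁻¹ := by positivity
  refine ⟨min 1 (min (c / (((p : ℝ) + 1) * 2 ^ m)) (((p : ℝ) + 2) ^ m)⁻¹),
    lt_min one_pos (lt_min hc' hp'), min_le_left _ _, fun n hn => ?_⟩
  rcases Nat.lt_or_ge n (p + 2) with hnp | hnp
  · have h1 : (1 : ℝ) ≤ D n := by exact_mod_cast D_pos hn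
    refine le_trans ?_ h1
    calc min 1 (min (c / (((p : ℝ) + 1) * 2 ^ m)) (((p : ℝ) + 2) ^ m)⁻¹) * (n : ℝ) ^ m
        ≤ (((p : ℝ) + 2) ^ m)⁻¹ * ((p : ℝ) + 2) ^ m := by
          refine mul_le_mul ((min_le_right _ _).trans (min_le_right _ _)) ?_ (by positivity)
            hp'.le
          refine pow_le_pow_left₀ (by positivity) ?_ _
          exact_mod_cast hnp.le
      _ = 1 := inv_mul_cancel₀ (by positivity)
  · obtain ⟨N, rfl⟩ : ∃ N, n = N + 2 := ⟨n - 2, by omega⟩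
    have h1 := nd_le h (show p ≤ N by omega)
    have h2 := hS N
    have h3 : c * ((N : ℝ) + 1) ^ m ≤ ((p : ℝ) + 1) * D (N + 2) := by
      refine h2.trans ?_
      have h4 : ((finrank ℚ (S N) : ℕ) : ℝ) ≤ (p * D (N + 2) : ℕ) := by exact_mod_cast h1
      refine h4.trans ?_
      push_cast
      have : (0 : ℝ) ≤ D (N + 2) := Nat.cast_nonneg _
      nlinarith
    have h5 : (((N + 2 : ℕ) : ℝ)) ^ m ≤ 2 ^ m * ((N : ℝ) + 1) ^ m := by
      rw [← mul_pow]
      refine pow_le_pow_left₀ (by positivity) ?_ _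
      push_cast
      have : (0 : ℝ) ≤ N := Nat.cast_nonneg _
      linarith
    calc min 1 (min (c / (((p : ℝ) + 1) * 2 ^ m)) (((p : ℝ) + 2) ^ m)⁻¹) * ((N + 2 : ℕ) : ℝ) ^ m
        ≤ c / (((p : ℝ) + 1) * 2 ^ m) * (2 ^ m * ((N : ℝ) + 1) ^ m) :=
          mul_le_mul ((min_le_right _ _).trans (min_le_left _ _)) h5 (by positivity) hc'.le
      _ = (c * ((N : ℝ) + 1) ^ m) / ((p : ℝ) + 1) := by
          field_simp
      _ ≤ D (N + 2) := by
          rw [div_le_iff₀ (by positivity)]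
          linarith

theorem sum_growth {m : ℕ} {c : ℝ} (hc : 0 < c) (hc1 : c ≤ 1)
    (h : ∀ n : ℕ, 2 ≤ n → c * (n : ℝ) ^ m ≤ D n) (M : ℕ) :
    c / 4 ^ (m + 1) * ((M : ℝ) + 1) ^ (m + 1) ≤ ∑ n ∈ Finset.range (M + 1), (D n : ℝ) := by
  rcases Nat.lt_or_ge M 3 with hM | hM
  · have h1 : (1 : ℝ) ≤ ∑ n ∈ Finset.range (M + 1), (D n : ℝ) := by
      have h2 : (D 0 : ℝ) ≤ ∑ n ∈ Finset.range (M + 1), (D n : ℝ) :=
        Finset.single_le_sum (f := fun n => (D n : ℝ)) (fun n _ => Nat.cast_nonneg _)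
          (Finset.mem_range.2 (by omega))
      have h3 : (1 : ℝ) ≤ D 0 := by exact_mod_cast D_zero_pos
      linarith
    refine le_trans ?_ h1
    have h2 : ((M : ℝ) + 1) ^ (m + 1) ≤ 4 ^ (m + 1) := by
      refine pow_le_pow_left₀ (by positivity) ?_ _
      have : (M : ℝ) < 3 := by exact_mod_cast hM
      linarith
    calc c / 4 ^ (m + 1) * ((M : ℝ) + 1) ^ (m + 1) ≤ c / 4 ^ (m + 1) * 4 ^ (m + 1) := by
          gcongr
      _ = c := by field_simp
      _ ≤ 1 := hc1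
  · set k : ℕ := (M + 1) / 2 with hk
    have hk1 : (M : ℝ) + 1 ≤ 4 * k := by
      have : M + 1 ≤ 4 * k := by omega
      exact_mod_cast this
    have hsub : Finset.Ico k (M + 1) ⊆ Finset.range (M + 1) := fun x hx =>
      Finset.mem_range.2 (Finset.mem_Ico.1 hx).2
    calc c / 4 ^ (m + 1) * ((M : ℝ) + 1) ^ (m + 1)
        = c * (((M : ℝ) + 1) / 4) ^ m * (((M : ℝ) + 1) / 4) := by
          rw [div_pow, pow_succ, pow_succ]
          field_simp
      _ ≤ c * (k : ℝ) ^ m * ((M + 1 - k : ℕ) : ℝ) := by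
          have h5 : ((M : ℝ) + 1) / 4 ≤ k := by linarith
          have h6 : ((M : ℝ) + 1) / 4 ≤ ((M + 1 - k : ℕ) : ℝ) := by
            have : M + 1 ≤ 4 * (M + 1 - k) := by omega
            have h7 : ((M + 1 : ℕ) : ℝ) ≤ ((4 * (M + 1 - k) : ℕ) : ℝ) := by exact_mod_cast this
            push_cast [show k ≤ M + 1 by omega] at h7 ⊢
            linarith
          gcongr
      _ = ∑ _n ∈ Finset.Ico k (M + 1), c * (k : ℝ) ^ m := by
          rw [Finset.sum_const, Nat.card_Ico, nsmul_eq_mul, mul_comm]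
      _ ≤ ∑ n ∈ Finset.Ico k (M + 1), (D n : ℝ) := by
          refine Finset.sum_le_sum fun n hn => ?_
          have h5 := (Finset.mem_Ico.1 hn).1
          refine le_trans ?_ (h n (by omega))
          gcongr
      _ ≤ ∑ n ∈ Finset.range (M + 1), (D n : ℝ) :=
          Finset.sum_le_sum_of_subset_of_nonneg hsub fun n _ _ => Nat.cast_nonneg _

theorem nd_defect {p m : ℕ} (h : ¬ Direct p) {z : Fin m → ℝ} (hz : AlgebraicIndependent ℚ z)
    (hw : ∀ i, ∃ w, z i ∈ Zs w) : ∃ c : ℝ, 0 < c ∧ (∀ n : ℕ, 2 ≤ n → c * (n : ℝ) ^ m ≤ D n) ∧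
      ∀ N : ℕ, p ≤ N → (finrank ℚ (S N) : ℝ) + c * ((N : ℝ) - p + 1) ^ (m + 1) ≤
        ∑ n ∈ Finset.range (N + 1), (D n : ℝ) := by
  obtain ⟨c, hc, hc1, hD⟩ := nd_growth h hz hw
  have hc4 : c / 4 ^ (m + 1) ≤ c := by
    rw [div_le_iff₀ (by positivity)]
    have : (1 : ℝ) ≤ 4 ^ (m + 1) := one_le_pow₀ (by norm_num)
    nlinarith
  refine ⟨c / 4 ^ (m + 1), by positivity, fun n hn => ?_, fun N hN => ?_⟩
  · refine le_trans ?_ (hD n hn)
    gcongr
  · have h1 := nd_ineq h hN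
    have h2 := sum_growth hc hc1 hD (N - p)
    have h3 : ((finrank ℚ (S N) : ℕ) : ℝ) + ∑ n ∈ Finset.range (N - p + 1), (D n : ℝ) ≤
        ∑ n ∈ Finset.range (N + 1), (D n : ℝ) := by exact_mod_cast h1
    rw [Nat.cast_sub hN] at h2
    linarith

/-- `π ^ 2` alone -/
theorem pi_alg_indep : AlgebraicIndependent ℚ (fun _ : Fin 1 => Real.pi ^ 2) := by
  rw [algebraicIndependent_unique_type_iff]
  exact Pool.Agent.H340R2.LW.transcendental_pi.pow (by norm_num)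

end Pool.Agent.T2H35.MZ
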