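import Pool.Agent.T2H35.MZ.Rev

/-!
# Asymptotic directness implies directness
-/

set_option autoImplicit false

open Polynomial Module Filter Topology

namespace Pool.Agent.T2H35.MZ

open Pool.Agent.H447R2.MZ hiding Direct Zs_one pi_pow_mem
open Pool.Agent.Y129.MZ Pool.Agent.Y123.MZ

theorem D_le_pow (n : ℕ) : D n ≤ 2 ^ n := by
  classical
  have hle : Zs n ≤ Submodule.span ℚ (Set.range (fun c : Composition n => val c.blocks)) := by
    rw [Zs_eq]
    refine Submodule.span_mono ?_
    rintro _ ⟨s, hs, hn, rfl⟩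
    exact ⟨⟨s, fun {i} hi => hs.1 i hi, hn⟩, rfl⟩
  have hfin : FiniteDimensional ℚ
      (Submodule.span ℚ (Set.range (fun c : Composition n => val c.blocks))) :=
    FiniteDimensional.span_of_finite ℚ (Set.finite_range _)
  calc D n ≤ finrank ℚ (Submodule.span ℚ (Set.range (fun c : Composition n => val c.blocks))) :=
        Submodule.finrank_mono hle
    _ ≤ Fintype.card (Composition n) := finrank_range_le_card _
    _ = 2 ^ (n - 1) := composition_card n
    _ ≤ 2 ^ n := Nat.pow_le_pow_right (by norm_num) (by omega)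

/-- the sum of the dimensions -/
noncomputable abbrev T (N : ℕ) : ℕ := ∑ n ∈ Finset.range (N + 1), D n

theorem T_pos (N : ℕ) : 1 ≤ T N :=
  D_zero_pos.trans (Finset.single_le_sum (f := D) (fun n _ => Nat.zero_le _)
    (Finset.mem_range.2 (by omega)))

theorem T_le (N : ℕ) : T N ≤ 2 ^ (N + 1) := by
  calc T N ≤ ∑ n ∈ Finset.range (N + 1), 2 ^ n := Finset.sum_le_sum fun n _ => D_le_pow n
    _ ≤ 2 ^ (N + 1) := by
        rw [Nat.geomSum_eq le_rfl]
        simp

/-- the sum is direct: the dimensions add up -/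
theorem S_eq_T {N : ℕ} (h : Direct N) : finrank ℚ (S N) = T N := by
  have hinj : Function.Injective (ev.domRestrict (G Zs (N + 1))) := by
    rw [← LinearMap.ker_eq_bot, LinearMap.ker_eq_bot']
    intro P hP
    apply Subtype.ext
    have hP' := (mem_G Zs).1 P.2
    have h1 : ∑ j ∈ Finset.range (N + 1), (P : ℝ[X]).coeff j = 0 := by
      have h2 : (P : ℝ[X]).eval 1 = 0 := hP
      rw [eval_eq_sum_range' (n := N + 1)] at h2
      · simpa using h2
      · by_cases h0 : (P : ℝ[X]) = 0
        · rw [h0]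
          simp
        · by_contra hcon
          exact h0 (leadingCoeff_eq_zero.1 (hP'.2 _ (by omega)))
    have h2 := h (fun j => (P : ℝ[X]).coeff j) (fun j _ => hP'.1 j) h1
    ext j
    rw [Submodule.coe_zero, coeff_zero]
    rcases Nat.lt_or_ge N j with hj | hj
    · exact hP'.2 _ hj
    · exact h2 j hj
  have h1 := LinearMap.finrank_range_of_inj hinj
  rw [LinearMap.range_domRestrict, map_G, finrank_G] at h1
  exact h1

theorem zero_one : (∀ p, Direct p) ↔
    Tendsto (fun N => (finrank ℚ (S N) : ℝ) / T N) atTop (𝓝 1) := by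
  constructor
  · intro h
    refine tendsto_const_nhds.congr fun N => ?_
    rw [S_eq_T (h N), div_self]
    have := T_pos N
    positivity
  · intro h p
    by_contra hp
    have hp1 : 1 ≤ p := by
      by_contra h0
      have : p = 0 := by omega
      subst this
      refine hp fun z _ hs j hj => ?_
      have : j = 0 := by omega
      subst this
      simpa using hs
    have hlt : 1 - ((3 : ℝ) ^ p)⁻¹ < 1 := by
      have : (0 : ℝ) < ((3 : ℝ) ^ p)⁻¹ := by positivity
      linarith
    obtain ⟨N₀, hN₀⟩ := eventually_atTop.1 (h.eventually_const_lt hlt)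
    have hstep : ∀ N : ℕ, N₀ ≤ N → 3 ^ p * (T N : ℝ) ≤ T (N + p) := by
      intro N hN
      have h1 := hN₀ (N + p) (by omega)
      have hT : (0 : ℝ) < T (N + p) := by
        have := T_pos (N + p)
        positivity
      rw [lt_div_iff₀ hT] at h1
      have h2 := nd_ineq hp (show p ≤ N + p by omega)
      rw [show N + p - p = N by omega] at h2
      have h3 : (finrank ℚ (S (N + p)) : ℝ) + T N ≤ T (N + p) := by exact_mod_cast h2
      have h4 : (T N : ℝ) ≤ ((3 : ℝ) ^ p)⁻¹ * T (N + p) := by linarith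
      calc 3 ^ p * (T N : ℝ) ≤ 3 ^ p * (((3 : ℝ) ^ p)⁻¹ * T (N + p)) := by gcongr
        _ = T (N + p) := by
            rw [← mul_assoc, mul_inv_cancel₀ (by positivity), one_mul]
    have hiter : ∀ k : ℕ, ((3 : ℝ) ^ p) ^ k ≤ T (N₀ + p * k) := by
      intro k
      induction k with
      | zero =>
        have : (1 : ℝ) ≤ T N₀ := by exact_mod_cast T_pos N₀
        simpa using this
      | succ k ih =>
        have h1 := hstep (N₀ + p * k) (by omega)
        rw [pow_succ, mul_comm]
        refine le_trans (by gcongr) (h1.trans (le_of_eq ?_))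
        rw [show N₀ + p * k + p = N₀ + p * (k + 1) by ring]
    have hup : ∀ k : ℕ, ((3 : ℝ) ^ p) ^ k ≤ 2 ^ (N₀ + 1) * ((2 : ℝ) ^ p) ^ k := by
      intro k
      refine (hiter k).trans ?_
      have h1 : ((T (N₀ + p * k) : ℕ) : ℝ) ≤ ((2 ^ (N₀ + p * k + 1) : ℕ) : ℝ) := by
        exact_mod_cast T_le (N₀ + p * k)
      refine h1.trans (le_of_eq ?_)
      push_cast
      rw [← pow_mul, ← pow_add]
      congr 1
      ring
    have hr : (1 : ℝ) < (3 / 2) ^ p := one_lt_pow₀ (by norm_num) (by omega)
    obtain ⟨k, hk⟩ := pow_unbounded_of_one_lt ((2 : ℝ) ^ (N₀ + 1)) hr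
    have h1 := hup k
    have h2 : ((3 : ℝ) ^ p) ^ k = ((3 / 2 : ℝ) ^ p) ^ k * ((2 : ℝ) ^ p) ^ k := by
      rw [← mul_pow, ← mul_pow]
      norm_num
    rw [h2] at h1
    have h3 : (0 : ℝ) < ((2 : ℝ) ^ p) ^ k := by positivity
    have h4 := le_of_mul_le_mul_right h1 h3
    linarith

end Pool.Agent.T2H35.MZ
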